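import Pool.Agent.KottwitzG.Defs

set_option autoImplicit false

namespace Pool.Agent.KottwitzG

open Finset

section

variable {Γ V D : Type} [Group Γ] [Fintype Γ] [AddCommGroup V] [Module ℚ V]
  [DistribMulAction Γ V] [Fintype D] [DecidableEq D] [MulAction Γ D]

/-- The subgroup `I` of `Y` with `Y / I = X_*(T)_Γ`. -/
def Datum.I (R : Datum Γ V D) : AddSubgroup V :=
  AddSubgroup.closure {v | ∃ (g : Γ) (y : V), y ∈ R.Y ∧ v = g • y - y}

end

end Pool.Agent.KottwitzG
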