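import Mathlib

set_option autoImplicit false

/-!
# Kottwitz sets of connected reductive groups over `ℚ_p`, in terms of root data
-/

namespace Pool.Agent.KottwitzG

open Finset

/-- A based root datum with an action of a finite group `Γ`: the based root datum of a quasi-split
connected reductive group `H` over `ℚ_p`, with the action of the Galois group of a finite extension
that splits `H`. `Y` is the lattice `X_*(T)` in `V = X_*(T) ⊗ ℚ`, and `D` indexes the simple roots
and the simple coroots. -/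
structure Datum (Γ V D : Type) [Group Γ] [Fintype Γ] [AddCommGroup V] [Module ℚ V]
    [DistribMulAction Γ V] [Fintype D] [DecidableEq D] [MulAction Γ D] where
  Y : AddSubgroup V
  lattice : ∃ (r : ℕ) (B : Module.Basis (Fin r) ℚ V), Y = AddSubgroup.closure (Set.range B)
  smul_mem : ∀ (g : Γ) (y : V), y ∈ Y → g • y ∈ Y
  root : D → V →ₗ[ℚ] ℚ
  coroot : D → V
  root_int : ∀ a, ∀ y ∈ Y, ∃ m : ℤ, root a y = m
  coroot_mem : ∀ a, coroot a ∈ Y
  root_smul : ∀ (g : Γ) (a : D) (v : V), root (g • a) (g • v) = root a v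
  coroot_smul : ∀ (g : Γ) (a : D), coroot (g • a) = g • coroot a
  diag : ∀ a, root a (coroot a) = 2
  offdiag : ∀ a b, a ≠ b → root a (coroot b) ≤ 0
  posdef : ∃ s : D → ℚ, (∀ a, 0 < s a) ∧
    (∀ a b, s a * root a (coroot b) = s b * root b (coroot a)) ∧
    ∀ x : D → ℚ, x ≠ 0 → 0 < ∑ a, ∑ b, s a * root a (coroot b) * x a * x b

section

variable {Γ V D : Type} [Group Γ] [Fintype Γ] [AddCommGroup V] [Module ℚ V]
  [DistribMulAction Γ V] [Fintype D] [DecidableEq D] [MulAction Γ D]

/-- The average over `Γ`. -/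
def avg (Γ : Type) {V : Type} [Group Γ] [Fintype Γ] [AddCommGroup V] [Module ℚ V]
    [DistribMulAction Γ V] (v : V) : V := (Fintype.card Γ : ℚ)⁻¹ • ∑ g : Γ, g • v

/-- The `Γ`-orbit of a simple root. -/
def orb (Γ : Type) {D : Type} [Group Γ] [Fintype Γ] [DecidableEq D] [MulAction Γ D] (a : D) :
    Finset D := univ.image (fun g : Γ => g • a)

namespace Datum

/-- `∑ a, f a • α_a^∨`. -/
def comb (R : Datum Γ V D) (f : D → ℚ) : V := ∑ a, f a • R.coroot a

/-- The subgroup `N` of `Y` with `Y / N = π_1(H)_Γ`: it is spanned by the coroots and the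
elements `g y - y`. -/
def N (R : Datum Γ V D) : AddSubgroup V :=
  AddSubgroup.closure (Set.range R.coroot ∪ {v | ∃ (g : Γ) (y : V), y ∈ R.Y ∧ v = g • y - y})

/-- `B(G)` for the inner form `G` of `H` given by `c`: the pairs (Newton point, Kottwitz
invariant). -/
def InB (R : Datum Γ V D) (c : D → ℚ) (x : V × (V ⧸ R.N)) : Prop :=
  (∀ g : Γ, g • x.1 = x.1) ∧ (∀ a, 0 ≤ R.root a x.1) ∧
    ∃ l ∈ R.Y, (QuotientAddGroup.mk l : V ⧸ R.N) = x.2 ∧
      avg Γ (l + R.comb c) - x.1 ∈ Submodule.span ℚ (R.coroot '' {a | R.root a x.1 = 0})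

/-- The Kottwitz set `B(G, mu)`, `mu` dominant. -/
def Kott (R : Datum Γ V D) (c : D → ℚ) (mu : V) : Set (V × (V ⧸ R.N)) :=
  {x | R.InB c x ∧ x.2 = QuotientAddGroup.mk mu ∧
    ∃ p : D → ℚ, (∀ a, 0 ≤ p a) ∧ avg Γ mu - x.1 = R.comb p}

/-- The bijection `B(G) → B(G_b)`, `[b'] ↦ [b' b⁻¹]`, on (Newton point, Kottwitz invariant), where
`b` is basic with Kottwitz invariant the class of `y` and Newton point the average of the component
`y - ∑ e_a α_a^∨` of `y` on which all roots vanish. -/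
def shift (R : Datum Γ V D) (y : V) (e : D → ℚ) (x : V × (V ⧸ R.N)) : V × (V ⧸ R.N) :=
  (x.1 - avg Γ (y - R.comb e), x.2 - QuotientAddGroup.mk y)

end Datum

end

end Pool.Agent.KottwitzG
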