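import Pool.Agent.KottwitzG.Proof

set_option autoImplicit false

namespace Pool.Agent.KottwitzG

open Finset

section frac

variable {Γ V D : Type} [Group Γ] [Fintype Γ] [AddCommGroup V] [Module ℚ V]
  [DistribMulAction Γ V] [Fintype D] [DecidableEq D] [MulAction Γ D]

/-- `avg` of an element of `N` in terms of its adjoint part -/
theorem avg_adj (R : Datum Γ V D) (v : V) (hv : v ∈ R.N) (f : D → ℚ)
    (hf : ∀ a, R.root a v = R.root a (R.comb f)) : avg Γ v = R.comb (fav Γ f) := by
  obtain ⟨n, hn⟩ := N_avg R v hv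
  have h1 : ∀ a, R.root a (v - R.comb f) = 0 := fun a => by rw [map_sub, hf a, sub_self]
  have h2 : ∀ a, R.root a (avg Γ (v - R.comb f)) = 0 := by
    intro a
    have h4 := root_avg R (v - R.comb f) (fun a => (h1 a).ge) a
    have h5 := root_avg R (-(v - R.comb f)) (fun a => by rw [map_neg, h1 a, neg_zero]) a
    have h6 : avg Γ (-(v - R.comb f)) = -avg Γ (v - R.comb f) := by
      have := avg_sub (Γ := Γ) (0 : V) (v - R.comb f)
      rw [avg_zero, zero_sub, zero_sub] at this
      exact this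
    rw [h6, map_neg] at h5
    linarith
  have h3 : ∀ a, R.root a (R.comb (fav Γ (fun b => (n b : ℚ)))) = R.root a (R.comb (fav Γ f)) := by
    intro a
    have := h2 a
    rw [avg_sub, map_sub, hn, avg_comb] at this
    linarith
  obtain ⟨e, he, huniq⟩ := adjoint_part R (R.comb (fav Γ f))
  have h4 := huniq (fav Γ (fun b => (n b : ℚ))) (fun a => (h3 a).symm)
  have h5 := huniq (fav Γ f) (fun a => rfl)
  rw [hn, h4, h5]

theorem frac_form (R : Datum Γ V D) (c e m m' : D → ℚ) (y mu mu' : V)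
    (he : ∀ a, R.root a y = R.root a (R.comb e)) (hm : ∀ a, R.root a mu = R.root a (R.comb m))
    (hm' : ∀ a, R.root a mu' = R.root a (R.comb m')) (hmu : mu ∈ R.Y) (hmu' : mu' ∈ R.Y)
    (hd : ∀ a, 0 ≤ R.root a mu) (hd' : ∀ a, 0 ≤ R.root a mu') :
    R.shift y e '' R.Kott c mu = R.Kott (fun a => c a + e a) mu' ↔
      (QuotientAddGroup.mk mu : V ⧸ R.N) = QuotientAddGroup.mk mu' + QuotientAddGroup.mk y ∧
        ∀ a, ∑ b ∈ orb Γ a, m b - Int.fract (-∑ b ∈ orb Γ a, c b) =
          ∑ b ∈ orb Γ a, m' b - Int.fract (-∑ b ∈ orb Γ a, (c b + e b)) := by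
  rw [criterion R c e y he mu mu' hmu hmu' hd hd']
  have hk : (mu - mu' - y ∈ R.N) ↔
      (QuotientAddGroup.mk mu : V ⧸ R.N) = QuotientAddGroup.mk mu' + QuotientAddGroup.mk y := by
    rw [← QuotientAddGroup.mk_add, QuotientAddGroup.eq]
    have : -mu + (mu' + y) = -(mu - mu' - y) := by abel
    rw [this, neg_mem_iff]
  rw [← hk]
  refine and_congr_right fun hN => ?_
  have h1 : avg Γ (mu - mu' - y) = R.comb (fav Γ (fun a => m a - m' a - e a)) := by
    apply avg_adj R _ hN
    intro a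
    rw [comb_sub R (fun a => m a - m' a) e, comb_sub R m m', map_sub, map_sub, map_sub, map_sub,
      hm a, hm' a, he a]
  rw [h1]
  have h2 : ∀ a, (fav Γ (fun a => m a - m' a - e a) a =
      (((⌈∑ b ∈ orb Γ a, c b⌉ - ⌈∑ b ∈ orb Γ a, (c b + e b)⌉ : ℤ) : ℚ) / (orb Γ a).card)) ↔
      (∑ b ∈ orb Γ a, m b - Int.fract (-∑ b ∈ orb Γ a, c b) =
          ∑ b ∈ orb Γ a, m' b - Int.fract (-∑ b ∈ orb Γ a, (c b + e b))) := by
    intro a
    have hc := orb_card_pos Γ a
    unfold fav
    rw [div_left_inj' hc.ne']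
    have e1 : ∀ x : ℚ, Int.fract (-x) = (⌈x⌉ : ℚ) - x := by
      intro x
      rw [Int.fract, Int.floor_neg]
      push_cast
      ring
    rw [e1, e1, Finset.sum_sub_distrib, Finset.sum_sub_distrib, Finset.sum_add_distrib]
    push_cast
    constructor
    · intro h
      linarith
    · intro h
      linarith
  constructor
  · intro h a
    exact (h2 a).1 (congrFun (comb_inj R _ _ h) a)
  · intro h
    congr 1
    funext a
    exact (h2 a).2 (h a)

end frac

end Pool.Agent.KottwitzG
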