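import Pool.Agent.KottwitzG.Defs

set_option autoImplicit false

namespace Pool.Agent.KottwitzG

open Finset

section easy

theorem orb_smul (Γ : Type) {D : Type} [Group Γ] [Fintype Γ] [DecidableEq D] [MulAction Γ D]
    (g : Γ) (a : D) : orb Γ (g • a) = orb Γ a := by
  ext b
  unfold orb
  simp only [mem_image, mem_univ, true_and]
  constructor
  · rintro ⟨h, rfl⟩
    exact ⟨h * g, by rw [mul_smul]⟩
  · rintro ⟨h, rfl⟩
    exact ⟨h * g⁻¹, by rw [mul_smul, inv_smul_smul]⟩

theorem mem_orb_self (Γ : Type) {D : Type} [Group Γ] [Fintype Γ] [DecidableEq D] [MulAction Γ D]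
    (a : D) : a ∈ orb Γ a := by
  unfold orb
  simp only [mem_image, mem_univ, true_and]
  exact ⟨1, one_smul _ _⟩

theorem orb_card_pos (Γ : Type) {D : Type} [Group Γ] [Fintype Γ] [DecidableEq D] [MulAction Γ D]
    (a : D) : (0 : ℚ) < ((orb Γ a).card : ℚ) := by
  have : 0 < (orb Γ a).card := Finset.card_pos.2 ⟨a, mem_orb_self Γ a⟩
  exact_mod_cast this

variable {Γ V D : Type} [Group Γ] [Fintype Γ] [AddCommGroup V] [Module ℚ V]
  [DistribMulAction Γ V] [Fintype D] [DecidableEq D] [MulAction Γ D]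

theorem avg_add (v w : V) : avg Γ (v + w) = avg Γ v + avg Γ w := by
  unfold avg
  rw [← smul_add, ← Finset.sum_add_distrib]
  congr 1
  exact Finset.sum_congr rfl fun g _ => smul_add g v w

theorem avg_sub (v w : V) : avg Γ (v - w) = avg Γ v - avg Γ w := by
  unfold avg
  rw [← smul_sub, ← Finset.sum_sub_distrib]
  congr 1
  exact Finset.sum_congr rfl fun g _ => smul_sub g v w

theorem gsmul_rat (g : Γ) (q : ℚ) (v : V) : g • (q • v) = q • (g • v) :=
  map_rat_smul (DistribSMul.toAddMonoidHom V g) q v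

theorem smul_avg (g : Γ) (v : V) : g • avg Γ v = avg Γ v := by
  unfold avg
  rw [gsmul_rat, Finset.smul_sum]
  congr 1
  exact Fintype.sum_equiv (Equiv.mulLeft g) _ _ fun h => by
    rw [smul_smul]
    rfl

theorem avg_smul (g : Γ) (v : V) : avg Γ (g • v) = avg Γ v := by
  unfold avg
  congr 1
  exact Fintype.sum_equiv (Equiv.mulRight g) _ _ fun h => by
    rw [smul_smul]
    rfl

theorem comb_add (R : Datum Γ V D) (f f' : D → ℚ) :
    R.comb (fun a => f a + f' a) = R.comb f + R.comb f' := by
  unfold Datum.comb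
  rw [← Finset.sum_add_distrib]
  exact Finset.sum_congr rfl fun a _ => add_smul _ _ _

theorem comb_sub (R : Datum Γ V D) (f f' : D → ℚ) :
    R.comb (fun a => f a - f' a) = R.comb f - R.comb f' := by
  unfold Datum.comb
  rw [← Finset.sum_sub_distrib]
  exact Finset.sum_congr rfl fun a _ => sub_smul _ _ _

theorem comb_mul (R : Datum Γ V D) (s : ℚ) (f : D → ℚ) :
    R.comb (fun a => s * f a) = s • R.comb f := by
  unfold Datum.comb
  rw [Finset.smul_sum]
  exact Finset.sum_congr rfl fun a _ => mul_smul _ _ _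

theorem comb_mem_N (R : Datum Γ V D) (m : D → ℤ) : R.comb (fun a => (m a : ℚ)) ∈ R.N := by
  unfold Datum.comb
  refine AddSubgroup.sum_mem _ fun a _ => ?_
  have h : R.coroot a ∈ R.N := by
    unfold Datum.N
    exact AddSubgroup.subset_closure (Or.inl ⟨a, rfl⟩)
  rw [Int.cast_smul_eq_zsmul]
  exact zsmul_mem h _

theorem N_le_Y (R : Datum Γ V D) : R.N ≤ R.Y := by
  unfold Datum.N
  rw [AddSubgroup.closure_le]
  rintro v (⟨a, rfl⟩ | ⟨g, y, hy, rfl⟩)
  · exact R.coroot_mem a
  · exact R.Y.sub_mem (R.smul_mem g y hy) hy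

theorem comb_mem_Y (R : Datum Γ V D) (m : D → ℤ) : R.comb (fun a => (m a : ℚ)) ∈ R.Y :=
  N_le_Y R (comb_mem_N R m)

theorem smul_comb (R : Datum Γ V D) (g : Γ) (f : D → ℚ) :
    g • R.comb f = R.comb (fun a => f (g⁻¹ • a)) := by
  unfold Datum.comb
  rw [Finset.smul_sum]
  exact Fintype.sum_equiv (MulAction.toPerm g) _ _ fun a => by
    rw [gsmul_rat, ← R.coroot_smul]
    simp

end easy

/-- orbit averages of functions -/
def fav (Γ : Type) {D : Type} [Group Γ] [Fintype Γ] [DecidableEq D] [MulAction Γ D]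
    (f : D → ℚ) (a : D) : ℚ := (∑ b ∈ orb Γ a, f b) / ((orb Γ a).card : ℚ)



section


theorem mmat {D : Type} [Fintype D] (C : D → D → ℚ) (off : ∀ a b, a ≠ b → C a b ≤ 0)
    (s : D → ℚ) (hs : ∀ a, 0 < s a) (hsym : ∀ a b, s a * C a b = s b * C b a)
    (hpos : ∀ x : D → ℚ, x ≠ 0 → 0 < ∑ a, ∑ b, s a * C a b * x a * x b)
    (J : D → Prop) (u : D → ℚ) (h1 : ∀ a, J a → ∑ b, C a b * u b ≤ 0)
    (h2 : ∀ a, ¬ J a → u a ≤ 0) : ∀ a, u a ≤ 0 := by
  by_contra hcon
  push Not at hcon
  obtain ⟨a0, ha0⟩ := hcon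
  have hv : (fun a => max (u a) 0) ≠ 0 := by
    intro h
    have := congrFun h a0
    simp only [Pi.zero_apply] at this
    rw [max_eq_left ha0.le] at this
    exact ha0.ne' this
  have hQ := hpos _ hv
  have hle : ∑ a, ∑ b, s a * C a b * max (u a) 0 * max (u b) 0 ≤ 0 := by
    apply Finset.sum_nonpos
    intro a _
    by_cases hua : 0 < u a
    · have hJ : J a := by
        by_contra hn
        exact absurd (h2 a hn) (not_le.2 hua)
      have e1 : ∑ b, C a b * max (u b) 0 ≤ ∑ b, C a b * u b := by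
        apply Finset.sum_le_sum
        intro b _
        by_cases hab : a = b
        · subst hab
          rw [max_eq_left hua.le]
        · exact mul_le_mul_of_nonpos_left (le_max_left _ _) (off a b hab)
      have e2 : ∑ b, s a * C a b * max (u a) 0 * max (u b) 0
          = (s a * max (u a) 0) * ∑ b, C a b * max (u b) 0 := by
        rw [Finset.mul_sum]
        apply Finset.sum_congr rfl
        intro b _
        ring
      rw [e2]
      apply mul_nonpos_of_nonneg_of_nonpos
      · exact mul_nonneg (hs a).le (le_max_right _ _)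
      · exact e1.trans (h1 a hJ)
    · rw [max_eq_right (not_lt.1 hua)]
      simp
  exact absurd hle (not_le.2 hQ)

end

section


theorem nondeg {D : Type} [Fintype D] [DecidableEq D] (C : D → D → ℚ) (s : D → ℚ)
    (hs : ∀ a, 0 < s a)
    (hpos : ∀ x : D → ℚ, x ≠ 0 → 0 < ∑ a, ∑ b, s a * C a b * x a * x b) :
    (∀ f : D → ℚ, (∀ a, ∑ b, C a b * f b = 0) → f = 0) ∧
      ∀ r : D → ℚ, ∃ f : D → ℚ, ∀ a, ∑ b, C a b * f b = r a := by
  have hinj : ∀ f : D → ℚ, (∀ a, ∑ b, C a b * f b = 0) → f = 0 := by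
    intro f hf
    by_contra hne
    have h1 := hpos f hne
    have h2 : ∑ a, ∑ b, s a * C a b * f a * f b = ∑ a, s a * f a * ∑ b, C a b * f b := by
      refine Finset.sum_congr rfl (fun a _ => ?_)
      rw [Finset.mul_sum]
      refine Finset.sum_congr rfl (fun b _ => ?_)
      ring
    rw [h2] at h1
    have h3 : ∑ a, s a * f a * ∑ b, C a b * f b = 0 := by
      refine Finset.sum_eq_zero (fun a _ => ?_)
      rw [hf a, mul_zero]
    rw [h3] at h1
    exact lt_irrefl _ h1
  refine ⟨hinj, ?_⟩
  let L : (D → ℚ) →ₗ[ℚ] (D → ℚ) :=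
    { toFun := fun f a => ∑ b, C a b * f b
      map_add' := by
        intro f g
        funext a
        simp [mul_add, Finset.sum_add_distrib]
      map_smul' := by
        intro c f
        funext a
        simp only [Pi.smul_apply, smul_eq_mul, RingHom.id_apply]
        rw [Finset.mul_sum]
        refine Finset.sum_congr rfl (fun b _ => ?_)
        ring }
  have hL : Function.Injective L := by
    rw [← LinearMap.ker_eq_bot, LinearMap.ker_eq_bot']
    intro f hf
    exact hinj f (fun a => congrFun hf a)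
  have hS : Function.Surjective L := LinearMap.injective_iff_surjective.mp hL
  intro r
  obtain ⟨f, hf⟩ := hS r
  exact ⟨f, fun a => congrFun hf a⟩

end

section


theorem fav_eq (Γ : Type) {D : Type} [Group Γ] [Fintype Γ] [DecidableEq D] [MulAction Γ D]
    (f : D → ℚ) (a : D) : fav Γ f a = (Fintype.card Γ : ℚ)⁻¹ * ∑ g : Γ, f (g • a) := by
  classical
  have hn : ∀ b ∈ orb Γ a, (univ.filter (fun g : Γ => g • a = b)).card =
      (univ.filter (fun g : Γ => g • a = a)).card := by
    intro b hb
    unfold orb at hb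
    rw [mem_image] at hb
    obtain ⟨h, -, rfl⟩ := hb
    apply card_nbij' (fun g => h⁻¹ * g) (fun g => h * g)
    · intro g hg
      simp only [coe_filter, mem_univ, true_and, Set.mem_setOf_eq] at hg ⊢
      rw [mul_smul, hg, inv_smul_smul]
    · intro g hg
      simp only [coe_filter, mem_univ, true_and, Set.mem_setOf_eq] at hg ⊢
      rw [mul_smul, hg]
    · intro g _
      simp
    · intro g _
      simp
  obtain ⟨n, hndef⟩ : ∃ n, n = (univ.filter (fun g : Γ => g • a = a)).card := ⟨_, rfl⟩
  rw [← hndef] at hn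
  have hnpos : 0 < n := by
    rw [hndef]
    exact card_pos.2 ⟨1, by simp⟩
  have h1 : ∀ F : D → ℚ, ∑ g : Γ, F (g • a) = n * ∑ b ∈ orb Γ a, F b := by
    intro F
    rw [sum_comp F (fun g : Γ => g • a), mul_sum]
    apply sum_congr rfl
    intro b hb
    rw [hn b hb, nsmul_eq_mul]
  have h2 : (Fintype.card Γ : ℚ) = n * (orb Γ a).card := by
    have := h1 (fun _ => 1)
    simpa using this
  have h3 : (0:ℚ) < (orb Γ a).card := by
    have : (orb Γ a).Nonempty := by
      unfold orb
      exact (univ_nonempty).image _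
    exact_mod_cast card_pos.2 this
  have h4 : (0:ℚ) < n := by exact_mod_cast hnpos
  unfold fav
  rw [h1, h2]
  field_simp

end

section


theorem rep (Γ : Type) {D : Type} [Group Γ] [Fintype Γ] [Fintype D] [DecidableEq D]
    [MulAction Γ D] (z : D → ℤ) (hz : ∀ (g : Γ) (a : D), z (g • a) = z a) :
    ∃ m : D → ℤ, ∀ a, ∑ b ∈ orb Γ a, m b = z a := by
  classical
  let r : D → D := fun a => Quotient.out (Quotient.mk (MulAction.orbitRel Γ D) a)
  have hr1 : ∀ a, ∃ g : Γ, r a = g • a := by
    intro a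
    have h : (MulAction.orbitRel Γ D).r (r a) a := Quotient.exact (Quotient.out_eq _)
    obtain ⟨g, hg⟩ := h
    exact ⟨g, hg.symm⟩
  have hr2 : ∀ (g : Γ) (a : D), r (g • a) = r a := by
    intro g a
    have h : (Quotient.mk (MulAction.orbitRel Γ D) (g • a)) =
        Quotient.mk (MulAction.orbitRel Γ D) a := by
      apply Quotient.sound
      exact ⟨g, rfl⟩
    show Quotient.out (Quotient.mk (MulAction.orbitRel Γ D) (g • a)) = _
    rw [h]
  refine ⟨fun b => if r b = b then z b else 0, fun a => ?_⟩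
  have hmem : ∀ b ∈ orb Γ a, ∃ g : Γ, g • a = b := by
    intro b hb
    simpa [orb] using hb
  have hra : r a ∈ orb Γ a := by
    obtain ⟨g, hg⟩ := hr1 a
    rw [hg]
    simp [orb]
  rw [Finset.sum_eq_single (r a)]
  · have h1 : r (r a) = r a := by
      obtain ⟨g, hg⟩ := hr1 a
      conv_lhs => rw [hg]
      exact hr2 g a
    rw [if_pos h1]
    obtain ⟨g, hg⟩ := hr1 a
    rw [hg]
    exact hz g a
  · intro b hb hne
    obtain ⟨g, rfl⟩ := hmem b hb
    apply if_neg
    intro h
    apply hne
    rw [← h]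
    exact hr2 g a
  · intro h
    exact absurd hra h

end

section

variable {Γ V D : Type} [Group Γ] [Fintype Γ] [AddCommGroup V] [Module ℚ V]
  [DistribMulAction Γ V] [Fintype D] [DecidableEq D] [MulAction Γ D]



theorem avg_comb (R : Datum Γ V D) (f : D → ℚ) : avg Γ (R.comb f) = R.comb (fav Γ f) := by
  have hL : ∀ g : Γ, g • R.comb f = ∑ a, f a • R.coroot (g • a) := by
    intro g
    unfold Datum.comb
    rw [Finset.smul_sum]
    apply Finset.sum_congr rfl
    intro a _
    have h := map_rat_smul (DistribMulAction.toAddMonoidHom V g) (f a) (R.coroot a)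
    simp only [DistribMulAction.toAddMonoidHom_apply] at h
    rw [h, R.coroot_smul]
  have hR : ∀ g : Γ, ∑ a, f (g • a) • R.coroot a = ∑ a, f a • R.coroot (g⁻¹ • a) := by
    intro g
    have h := Equiv.sum_comp (MulAction.toPerm g) (fun a => f a • R.coroot (g⁻¹ • a))
    simp only [MulAction.toPerm_apply, inv_smul_smul] at h
    exact h
  have e : R.comb (fav Γ f) = (Fintype.card Γ : ℚ)⁻¹ • ∑ g : Γ, ∑ a, f (g • a) • R.coroot a := by
    unfold Datum.comb
    rw [Finset.sum_comm, Finset.smul_sum]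
    apply Finset.sum_congr rfl
    intro a _
    rw [fav_eq, mul_smul, Finset.sum_smul]
  rw [e]
  unfold avg
  congr 1
  have e1 : ∑ g : Γ, g • R.comb f = ∑ g : Γ, ∑ a, f a • R.coroot (g • a) :=
    Finset.sum_congr rfl (fun g _ => hL g)
  have e2 : ∑ g : Γ, ∑ a, f (g • a) • R.coroot a = ∑ g : Γ, ∑ a, f a • R.coroot (g⁻¹ • a) :=
    Finset.sum_congr rfl (fun g _ => hR g)
  rw [e1, e2]
  exact (Equiv.sum_comp (Equiv.inv Γ) (fun g => ∑ a, f a • R.coroot (g • a))).symm

end

section

variable {Γ V D : Type} [Group Γ] [Fintype Γ] [AddCommGroup V] [Module ℚ V]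
  [DistribMulAction Γ V] [Fintype D] [DecidableEq D] [MulAction Γ D]


theorem comb_add' (R : Datum Γ V D) (f h : D → ℚ) :
    R.comb (fun a => f a + h a) = R.comb f + R.comb h := by
  unfold Datum.comb
  rw [← Finset.sum_add_distrib]
  exact Finset.sum_congr rfl fun a _ => add_smul _ _ _

theorem comb_neg' (R : Datum Γ V D) (f : D → ℚ) :
    R.comb (fun a => - f a) = - R.comb f := by
  unfold Datum.comb
  rw [← Finset.sum_neg_distrib]
  exact Finset.sum_congr rfl fun a _ => neg_smul _ _

theorem comb_zero' (R : Datum Γ V D) :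
    R.comb (fun _ => 0) = 0 := by
  unfold Datum.comb
  simp

theorem comb_single' (R : Datum Γ V D) (a : D) :
    R.comb (fun b => (((Pi.single a 1 : D → ℤ) b : ℤ) : ℚ)) = R.coroot a := by
  unfold Datum.comb
  rw [Finset.sum_eq_single a]
  · simp
  · intro b _ hb
    simp [Pi.single_eq_of_ne hb]
  · intro h
    exact absurd (Finset.mem_univ a) h

theorem avg_zero' : avg Γ (0 : V) = 0 := by
  have h := avg_sub (Γ := Γ) (0 : V) 0
  rw [sub_self, sub_self] at h
  exact h

theorem avg_neg' (v : V) : avg Γ (-v) = - avg Γ v := by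
  have h := avg_sub (Γ := Γ) (0 : V) v
  rw [avg_zero', zero_sub, zero_sub] at h
  exact h


theorem N_avg (R : Datum Γ V D) (v : V) (hv : v ∈ R.N) :
    ∃ m : D → ℤ, avg Γ v = R.comb (fav Γ (fun a => (m a : ℚ))) := by
  have key : ∃ m : D → ℤ, avg Γ v = avg Γ (R.comb (fun a => (m a : ℚ))) := by
    unfold Datum.N at hv
    induction hv using AddSubgroup.closure_induction with
    | mem x hx =>
      rcases hx with ⟨a, rfl⟩ | ⟨g, y, _, rfl⟩
      · exact ⟨Pi.single a 1, by rw [comb_single']⟩
      · refine ⟨fun _ => 0, ?_⟩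
        simp only [Int.cast_zero]
        rw [comb_zero', avg_zero', avg_sub, avg_smul, sub_self]
    | zero =>
      refine ⟨fun _ => 0, ?_⟩
      simp only [Int.cast_zero]
      rw [comb_zero']
    | add x y _ _ hx hy =>
      obtain ⟨m1, h1⟩ := hx
      obtain ⟨m2, h2⟩ := hy
      refine ⟨fun a => m1 a + m2 a, ?_⟩
      simp only [Int.cast_add]
      rw [comb_add', avg_add, avg_add, h1, h2]
    | neg x _ hx =>
      obtain ⟨m, h⟩ := hx
      refine ⟨fun a => - m a, ?_⟩
      simp only [Int.cast_neg]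
      rw [comb_neg', avg_neg', avg_neg', h]
  obtain ⟨m, hm⟩ := key
  exact ⟨m, by rw [hm, avg_comb]⟩

end

section

variable {Γ V D : Type} [Group Γ] [Fintype Γ] [AddCommGroup V] [Module ℚ V]
  [DistribMulAction Γ V] [Fintype D] [DecidableEq D] [MulAction Γ D]



theorem comb_inj (R : Datum Γ V D) (f f' : D → ℚ) (h : R.comb f = R.comb f') : f = f' := by
  obtain ⟨s, hs, _, hpos⟩ := R.posdef
  have hroot : ∀ (g : D → ℚ) (a : D), R.root a (R.comb g) =
      ∑ b, R.root a (R.coroot b) * g b := by
    intro g a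
    unfold Datum.comb
    rw [map_sum]
    refine Finset.sum_congr rfl fun b _ => ?_
    rw [map_smul, smul_eq_mul, mul_comm]
  have h1 : f - f' = 0 := by
    refine (nondeg (fun a b => R.root a (R.coroot b)) s hs hpos).1 (f - f') fun a => ?_
    have h2 : ∑ b, R.root a (R.coroot b) * (f - f') b =
        ∑ b, R.root a (R.coroot b) * f b - ∑ b, R.root a (R.coroot b) * f' b := by
      rw [← Finset.sum_sub_distrib]
      refine Finset.sum_congr rfl fun b _ => ?_
      rw [Pi.sub_apply, mul_sub]
    rw [h2, ← hroot, ← hroot, h, sub_self]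
  exact sub_eq_zero.1 h1

end

section

variable {Γ V D : Type} [Group Γ] [Fintype Γ] [AddCommGroup V] [Module ℚ V]
  [DistribMulAction Γ V] [Fintype D] [DecidableEq D] [MulAction Γ D]



theorem comb_span_aux {Γ V D : Type} [Group Γ] [Fintype Γ] [AddCommGroup V] [Module ℚ V]
    [DistribMulAction Γ V] [Fintype D] [DecidableEq D] [MulAction Γ D] (R : Datum Γ V D)
    (S : Set D) (v : V) (hv : v ∈ Submodule.span ℚ (R.coroot '' S)) :
    ∃ f : D → ℚ, (∀ a, a ∉ S → f a = 0) ∧ v = R.comb f := by
  induction hv using Submodule.span_induction with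
  | mem x hx =>
    obtain ⟨a, ha, rfl⟩ := hx
    refine ⟨Pi.single a 1, ?_, ?_⟩
    · intro b hb
      have hne : b ≠ a := by
        rintro rfl
        exact hb ha
      simp [Pi.single_apply, hne]
    · unfold Datum.comb
      rw [Finset.sum_eq_single a]
      · simp
      · intro b _ hb
        simp [Pi.single_apply, hb]
      · intro h
        exact absurd (Finset.mem_univ a) h
  | zero =>
    refine ⟨0, fun _ _ => rfl, ?_⟩
    simp [Datum.comb]
  | add x y _ _ hx hy =>
    obtain ⟨f, hf, rfl⟩ := hx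
    obtain ⟨g, hg, rfl⟩ := hy
    refine ⟨f + g, ?_, ?_⟩
    · intro a ha
      simp [hf a ha, hg a ha]
    · simp [Datum.comb, add_smul, Finset.sum_add_distrib]
  | smul c x _ hx =>
    obtain ⟨f, hf, rfl⟩ := hx
    refine ⟨c • f, ?_, ?_⟩
    · intro a ha
      simp [hf a ha]
    · simp [Datum.comb, mul_smul, Finset.smul_sum]

theorem comb_span (R : Datum Γ V D) (f : D → ℚ) (S : Set D) :
    R.comb f ∈ Submodule.span ℚ (R.coroot '' S) ↔ ∀ a, a ∉ S → f a = 0 := by
  constructor
  · intro h
    obtain ⟨f', hf', he⟩ := comb_span_aux R S _ h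
    obtain ⟨s, hs, _, hpos⟩ := R.posdef
    have hnd := (nondeg (fun a b => R.root a (R.coroot b)) s hs hpos).1
    have h0 : f - f' = 0 := by
      apply hnd
      intro a
      have h1 : R.root a (R.comb f) = R.root a (R.comb f') := by rw [he]
      unfold Datum.comb at h1
      rw [map_sum, map_sum] at h1
      simp only [map_smul, smul_eq_mul] at h1
      simp only [Pi.sub_apply, mul_sub]
      rw [Finset.sum_sub_distrib, sub_eq_zero]
      have h2 : ∀ g : D → ℚ, ∑ b, R.root a (R.coroot b) * g b =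
          ∑ b, g b * R.root a (R.coroot b) := fun g =>
        Finset.sum_congr rfl fun b _ => mul_comm _ _
      rw [h2, h2]
      exact h1
    intro a ha
    have h3 : f = f' := sub_eq_zero.1 h0
    rw [h3]
    exact hf' a ha
  · intro h
    unfold Datum.comb
    refine Submodule.sum_mem _ fun a _ => ?_
    by_cases ha : a ∈ S
    · exact Submodule.smul_mem _ _ (Submodule.subset_span ⟨a, ha, rfl⟩)
    · rw [h a ha, zero_smul]
      exact Submodule.zero_mem _

end

section

variable {Γ V D : Type} [Group Γ] [Fintype Γ] [AddCommGroup V] [Module ℚ V]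
  [DistribMulAction Γ V] [Fintype D] [DecidableEq D] [MulAction Γ D]



theorem comb_mmat (R : Datum Γ V D) (J : D → Prop) (u : D → ℚ)
    (h1 : ∀ a, J a → R.root a (R.comb u) ≤ 0) (h2 : ∀ a, ¬ J a → u a ≤ 0) : ∀ a, u a ≤ 0 := by
  obtain ⟨s, hs, hsym, hpos⟩ := R.posdef
  refine mmat (fun a b => R.root a (R.coroot b)) R.offdiag s hs hsym hpos J u ?_ h2
  intro a ha
  have h := h1 a ha
  have e : R.root a (R.comb u) = ∑ b, R.root a (R.coroot b) * u b := by
    unfold Datum.comb
    rw [map_sum]
    refine Finset.sum_congr rfl fun b _ => ?_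
    rw [map_smul, smul_eq_mul, mul_comm]
  rw [e] at h
  exact h

end

section

variable {Γ V D : Type} [Group Γ] [Fintype Γ] [AddCommGroup V] [Module ℚ V]
  [DistribMulAction Γ V] [Fintype D] [DecidableEq D] [MulAction Γ D]



theorem comb_solve (R : Datum Γ V D) (r : D → ℚ) (hr : ∀ (g : Γ) (a : D), r (g • a) = r a) :
    ∃ f : D → ℚ, (∀ a, R.root a (R.comb f) = r a) ∧ ∀ (g : Γ) (a : D), f (g • a) = f a := by
  obtain ⟨s, hs, _, hpos⟩ := R.posdef
  obtain ⟨hinj, hsurj⟩ := nondeg (fun a b => R.root a (R.coroot b)) s hs (by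
    intro x hx
    exact hpos x hx)
  obtain ⟨f, hf⟩ := hsurj r
  have hinv : ∀ (g : Γ) (a b : D), R.root (g • a) (R.coroot (g • b)) = R.root a (R.coroot b) := by
    intro g a b
    rw [R.coroot_smul, R.root_smul]
  refine ⟨f, ?_, ?_⟩
  · intro a
    rw [← hf a]
    unfold Datum.comb
    rw [map_sum]
    apply Finset.sum_congr rfl
    intro b _
    rw [map_smul, smul_eq_mul, mul_comm]
  · intro g a
    have h1 : (fun a => f (g • a) - f a) = 0 := by
      apply hinj
      intro a
      have h2 : ∑ b, R.root a (R.coroot b) * f (g • b) = r a := by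
        rw [← hr g a, ← hf (g • a)]
        rw [← Equiv.sum_comp (MulAction.toPerm g)
          (fun b => R.root (g • a) (R.coroot b) * f b)]
        apply Finset.sum_congr rfl
        intro b _
        rw [MulAction.toPerm_apply, hinv]
      simp only [mul_sub, Finset.sum_sub_distrib]
      rw [h2, hf a, sub_self]
    have h3 := congrFun h1 a
    simp only [Pi.zero_apply] at h3
    linarith

end

section

variable {Γ V D : Type} [Group Γ] [Fintype Γ] [AddCommGroup V] [Module ℚ V]
  [DistribMulAction Γ V] [Fintype D] [DecidableEq D] [MulAction Γ D]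



theorem root_avg (R : Datum Γ V D) (v : V) (hv : ∀ a, 0 ≤ R.root a v) (a : D) :
    0 ≤ R.root a (avg Γ v) := by
  unfold avg
  rw [map_smul, map_sum, smul_eq_mul]
  refine mul_nonneg (inv_nonneg.mpr (Nat.cast_nonneg _)) (Finset.sum_nonneg ?_)
  intro g _
  have h := R.root_smul g (g⁻¹ • a) v
  rw [smul_inv_smul] at h
  rw [h]
  exact hv _

end

section main

variable {Γ V D : Type} [Group Γ] [Fintype Γ] [AddCommGroup V] [Module ℚ V]
  [DistribMulAction Γ V] [Fintype D] [DecidableEq D] [MulAction Γ D]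

theorem comb_inv (R : Datum Γ V D) (f : D → ℚ) (hf : ∀ (g : Γ) (a : D), f (g • a) = f a)
    (g : Γ) : g • R.comb f = R.comb f := by
  rw [smul_comb]
  congr 1
  funext a
  exact hf _ _

theorem sum_orb_inv (f : D → ℚ) (g : Γ) (a : D) :
    ∑ b ∈ orb Γ (g • a), f b = ∑ b ∈ orb Γ a, f b := by
  rw [orb_smul]

theorem root_inv (R : Datum Γ V D) (v : V) (hv : ∀ g : Γ, g • v = v) (g : Γ) (a : D) :
    R.root (g • a) v = R.root a v := by
  have := R.root_smul g a v
  rw [hv g] at this
  exact this

/-- the admissible `p` -/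
def Adm (R : Datum Γ V D) (c : D → ℚ) (mu : V) (p : D → ℚ) : Prop :=
  (∀ (g : Γ) (a : D), p (g • a) = p a) ∧ (∀ a, 0 ≤ R.root a (avg Γ mu - R.comb p)) ∧
    ∀ a, R.root a (avg Γ mu - R.comb p) = 0 ∨
      ∃ z : ℤ, ((orb Γ a).card : ℚ) * p a + ∑ b ∈ orb Γ a, c b = z

theorem kott_char (R : Datum Γ V D) (c : D → ℚ) (mu : V) (hmu : mu ∈ R.Y) (x : V × (V ⧸ R.N)) :
    x ∈ R.Kott c mu ↔ x.2 = QuotientAddGroup.mk mu ∧ ∃ p : D → ℚ, (∀ a, 0 ≤ p a) ∧
      x.1 = avg Γ mu - R.comb p ∧ Adm R c mu p := by
  constructor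
  · rintro ⟨⟨h1, h2, l, hl, hlx, hspan⟩, h3, p, hp, hpe⟩
    have hx : x.1 = avg Γ mu - R.comb p := by rw [← hpe]; abel
    have hpinv : ∀ (g : Γ) (a : D), p (g • a) = p a := by
      intro g a
      have h4 : g⁻¹ • R.comb p = R.comb p := by
        rw [← hpe, smul_sub, smul_avg, h1]
      rw [smul_comb] at h4
      have h5 := congrFun (comb_inj R _ _ h4) a
      simpa using h5
    refine ⟨h3, p, hp, hx, hpinv, ?_, ?_⟩
    · rw [← hx]
      exact h2
    · have hN : l - mu ∈ R.N := by
        rw [h3] at hlx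
        have h6 := QuotientAddGroup.eq.1 hlx
        have h7 : l - mu = -(-l + mu) := by abel
        rw [h7]
        exact R.N.neg_mem h6
      obtain ⟨m, hm⟩ := N_avg R _ hN
      have h8 : avg Γ (l + R.comb c) - x.1 = R.comb (fun a => fav Γ (fun b => (m b : ℚ)) a + fav Γ c a + p a) := by
        rw [comb_add R (fun a => fav Γ (fun b => (m b : ℚ)) a + fav Γ c a) p,
          comb_add R (fav Γ (fun b => (m b : ℚ))) (fav Γ c), ← hm, ← avg_comb, hx, avg_add, avg_sub]
        abel
      rw [h8, comb_span] at hspan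
      intro a
      by_cases ha : R.root a x.1 = 0
      · left
        rw [← hx]
        exact ha
      · right
        have h9 := hspan a ha
        have hc := orb_card_pos Γ a
        refine ⟨-∑ b ∈ orb Γ a, m b, ?_⟩
        unfold fav at h9
        push_cast
        field_simp at h9
        linarith
  · rintro ⟨h1, p, hp, hx, hinv, hdom, hbr⟩
    have hxinv : ∀ g : Γ, g • x.1 = x.1 := by
      intro g
      rw [hx, smul_sub, smul_avg, comb_inv R p hinv]
    refine ⟨⟨hxinv, ?_, ?_⟩, h1, p, hp, by rw [hx]; abel⟩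
    · rw [hx]
      exact hdom
    · classical
      obtain ⟨m, hm⟩ := rep Γ (fun a => if R.root a x.1 = 0 then (0 : ℤ) else
          ⌊((orb Γ a).card : ℚ) * p a + ∑ b ∈ orb Γ a, c b⌋) (by
        intro g a
        rw [root_inv R x.1 hxinv, orb_smul, hinv])
      refine ⟨mu - R.comb (fun a => (m a : ℚ)), R.Y.sub_mem hmu (comb_mem_Y R m), ?_, ?_⟩
      · rw [h1]
        rw [QuotientAddGroup.eq]
        have h2 : -(mu - R.comb (fun a => (m a : ℚ))) + mu = R.comb (fun a => (m a : ℚ)) := by abel
        rw [h2]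
        exact comb_mem_N R m
      · have h8 : avg Γ (mu - R.comb (fun a => (m a : ℚ)) + R.comb c) - x.1 =
            R.comb (fun a => p a + fav Γ c a - fav Γ (fun b => (m b : ℚ)) a) := by
          rw [comb_sub R (fun a => p a + fav Γ c a) (fav Γ (fun b => (m b : ℚ))),
            comb_add R p (fav Γ c), ← avg_comb, ← avg_comb, hx, avg_add, avg_sub]
          abel
        rw [h8, comb_span]
        intro a ha
        have ha' : R.root a x.1 ≠ 0 := ha
        have h9 := hm a
        rw [if_neg ha'] at h9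
        rcases hbr a with h10 | ⟨z, hz⟩
        · rw [← hx] at h10
          exact absurd h10 ha'
        · rw [hz, Int.floor_intCast] at h9
          have hc := orb_card_pos Γ a
          have h11 : (∑ b ∈ orb Γ a, (m b : ℚ)) = z := by exact_mod_cast h9
          unfold fav
          rw [h11, ← hz]
          have key : ∀ (S k u : ℚ), 0 < k → u + S / k - (k * u + S) / k = 0 := by
            intro S k u hk
            field_simp
            ring
          exact key _ _ _ hc

/-- the basic element -/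
theorem basic (R : Datum Γ V D) (c : D → ℚ) (mu : V) (hd : ∀ a, 0 ≤ R.root a mu) :
    ∃ p : D → ℚ, (∀ a, 0 ≤ p a) ∧ (∀ (g : Γ) (a : D), p (g • a) = p a) ∧
      ∀ a, R.root a (avg Γ mu - R.comb p) = 0 := by
  obtain ⟨p, hp, hinv⟩ := comb_solve R (fun a => R.root a (avg Γ mu))
    (fun g a => root_inv R _ (fun g => smul_avg g mu) g a)
  have h1 : ∀ a, R.root a (avg Γ mu - R.comb p) = 0 := by
    intro a
    rw [map_sub, hp a, sub_self]
  refine ⟨p, ?_, hinv, h1⟩
  have h2 := comb_mmat R (fun _ => True) (fun a => (-1) * p a) (fun a _ => by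
    rw [comb_mul, map_smul, hp a]
    have := root_avg R mu hd a
    simp only [smul_eq_mul]
    linarith) (fun a h => absurd trivial h)
  intro a
  have := h2 a
  linarith

theorem test (R : Datum Γ V D) (c : D → ℚ) (mu : V) (hd : ∀ a, 0 ≤ R.root a mu) (β : D) :
    ∃ p : D → ℚ, (∀ a, 0 ≤ p a) ∧ Adm R c mu p ∧
      ((orb Γ β).card : ℚ) * p β + ∑ b ∈ orb Γ β, c b ≤ ⌈∑ b ∈ orb Γ β, c b⌉ := by
  obtain ⟨p0, hp0, hinv0, hb0⟩ := basic R c mu hd
  have hcard := orb_card_pos Γ β
  rcases le_or_gt (((orb Γ β).card : ℚ) * p0 β + ∑ b ∈ orb Γ β, c b)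
    (⌈∑ b ∈ orb Γ β, c b⌉ : ℚ) with hcase | hcase
  · exact ⟨p0, hp0, ⟨hinv0, fun a => (hb0 a).ge, fun a => Or.inl (hb0 a)⟩, hcase⟩
  · obtain ⟨f, hf, hfinv⟩ := comb_solve R (fun a => if a ∈ orb Γ β then (1 : ℚ) else 0) (by
      intro g a
      have : g • a ∈ orb Γ β ↔ a ∈ orb Γ β := by
        unfold orb
        simp only [mem_image, mem_univ, true_and]
        constructor
        · rintro ⟨h, hh⟩
          exact ⟨g⁻¹ * h, by rw [mul_smul, hh, inv_smul_smul]⟩
        · rintro ⟨h, rfl⟩
          exact ⟨g * h, by rw [mul_smul]⟩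
      simp only [this])
    have hf0 : ∀ a, 0 ≤ f a := by
      have h2 := comb_mmat R (fun _ => True) (fun a => (-1) * f a) (fun a _ => by
        rw [comb_mul, map_smul, hf a]
        simp only [smul_eq_mul]
        split_ifs <;> norm_num) (fun a h => absurd trivial h)
      intro a
      have := h2 a
      linarith
    have hroot : ∀ a, R.root a (R.comb f) = ∑ b, f b * R.root a (R.coroot b) := by
      intro a
      unfold Datum.comb
      rw [map_sum]
      exact Finset.sum_congr rfl fun b _ => by rw [map_smul, smul_eq_mul]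
    have hfβ : 0 < f β := by
      rcases (hf0 β).lt_or_eq with h | h
      · exact h
      · exfalso
        have h3 := hf β
        rw [if_pos (mem_orb_self Γ β), hroot] at h3
        have h4 : ∑ b, f b * R.root β (R.coroot b) ≤ 0 := by
          refine Finset.sum_nonpos fun b _ => ?_
          by_cases hb : b = β
          · subst hb
            rw [← h]
            simp
          · have := R.offdiag β b (Ne.symm hb)
            have := hf0 b
            nlinarith
        linarith
    obtain ⟨s, hs⟩ : ∃ s : ℚ, s = (((orb Γ β).card : ℚ) * p0 β + ∑ b ∈ orb Γ β, c b -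
        (⌈∑ b ∈ orb Γ β, c b⌉ : ℚ)) / (((orb Γ β).card : ℚ) * f β) := ⟨_, rfl⟩
    have hs0 : 0 ≤ s := by
      rw [hs]
      apply div_nonneg
      · linarith
      · positivity
    have hse : s * (((orb Γ β).card : ℚ) * f β) = ((orb Γ β).card : ℚ) * p0 β + ∑ b ∈ orb Γ β, c b -
        (⌈∑ b ∈ orb Γ β, c b⌉ : ℚ) := by
      rw [hs]
      field_simp
    have hcomb : R.comb (fun a => p0 a - s * f a) = R.comb p0 - s • R.comb f := by
      rw [comb_sub R p0 (fun a => s * f a), comb_mul]
    have hr : ∀ a, R.root a (avg Γ mu - R.comb (fun a => p0 a - s * f a)) =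
        if a ∈ orb Γ β then s else 0 := by
      intro a
      have h5 : avg Γ mu - R.comb (fun a => p0 a - s * f a) =
          (avg Γ mu - R.comb p0) + s • R.comb f := by
        rw [hcomb]
        abel
      rw [h5, map_add, map_smul, hb0, hf a]
      split_ifs <;> simp
    have hval : ((orb Γ β).card : ℚ) * (p0 β - s * f β) + ∑ b ∈ orb Γ β, c b =
        (⌈∑ b ∈ orb Γ β, c b⌉ : ℚ) := by
      linarith
    have hinv : ∀ (g : Γ) (a : D), p0 (g • a) - s * f (g • a) = p0 a - s * f a := by
      intro g a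
      rw [hinv0, hfinv]
    have horb : ∀ a, a ∈ orb Γ β → orb Γ a = orb Γ β ∧ p0 a - s * f a = p0 β - s * f β := by
      intro a ha
      unfold orb at ha
      simp only [mem_image, mem_univ, true_and] at ha
      obtain ⟨g, rfl⟩ := ha
      exact ⟨orb_smul Γ g β, hinv g β⟩
    refine ⟨fun a => p0 a - s * f a, ?_, ⟨hinv, ?_, ?_⟩, hval.le⟩
    · have h6 := comb_mmat R (fun a => a ∉ orb Γ β) (fun a => (-1) * (p0 a - s * f a))
        (fun a ha => by
          rw [comb_mul R (-1) (fun a => p0 a - s * f a), map_smul]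
          have h7 := hr a
          rw [if_neg ha, map_sub] at h7
          have := root_avg R mu hd a
          simp only [smul_eq_mul]
          linarith)
        (fun a ha => by
          have ha' : a ∈ orb Γ β := not_not.1 ha
          rw [(horb a ha').2]
          have h8 : (∑ b ∈ orb Γ β, c b) ≤ (⌈∑ b ∈ orb Γ β, c b⌉ : ℚ) := Int.le_ceil _
          have h9 : 0 ≤ ((orb Γ β).card : ℚ) * (p0 β - s * f β) := by linarith
          have h10 : 0 ≤ p0 β - s * f β := nonneg_of_mul_nonneg_right h9 hcard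
          linarith)
      intro a
      have := h6 a
      linarith
    · intro a
      rw [hr a]
      split_ifs
      · exact hs0
      · exact le_rfl
    · intro a
      by_cases ha : a ∈ orb Γ β
      · right
        obtain ⟨h1, h2⟩ := horb a ha
        refine ⟨⌈∑ b ∈ orb Γ β, c b⌉, ?_⟩
        simp only
        rw [h1, h2]
        exact hval
      · left
        rw [hr a, if_neg ha]

theorem avg_zero : avg Γ (0 : V) = 0 := by
  have := avg_sub (Γ := Γ) (0 : V) 0
  rw [sub_zero, sub_self] at this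
  exact this

/-- the transported Newton point -/
theorem transport (R : Datum Γ V D) (e : D → ℚ) (y mu mu' : V) (n : D → ℤ)
    (havg : avg Γ (mu - mu' - y) = R.comb (fav Γ (fun b => (n b : ℚ)))) (p : D → ℚ) :
    avg Γ mu - R.comb p - avg Γ (y - R.comb e) =
      avg Γ mu' - R.comb (fun a => p a - fav Γ (fun b => (n b : ℚ)) a - fav Γ e a) := by
  rw [comb_sub R (fun a => p a - fav Γ (fun b => (n b : ℚ)) a) (fav Γ e),
    comb_sub R p (fav Γ (fun b => (n b : ℚ))), ← havg, ← avg_comb, avg_sub, avg_sub, avg_sub]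
  abel

theorem adm_transport (R : Datum Γ V D) (c e : D → ℚ) (y mu mu' : V) (n : D → ℤ)
    (hroot : ∀ a, R.root a (y - R.comb e) = 0)
    (havg : avg Γ (mu - mu' - y) = R.comb (fav Γ (fun b => (n b : ℚ)))) (p : D → ℚ)
    (h : Adm R c mu p) :
    Adm R (fun a => c a + e a) mu' (fun a => p a - fav Γ (fun b => (n b : ℚ)) a - fav Γ e a) := by
  obtain ⟨h1, h2, h3⟩ := h
  have hz : ∀ a, R.root a (avg Γ (y - R.comb e)) = 0 := by
    intro a
    have h4 := root_avg R (y - R.comb e) (fun a => (hroot a).ge) a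
    have h5 := root_avg R (-(y - R.comb e)) (fun a => by rw [map_neg, hroot a, neg_zero]) a
    have h6 : avg Γ (-(y - R.comb e)) = -avg Γ (y - R.comb e) := by
      have := avg_sub (Γ := Γ) (0 : V) (y - R.comb e)
      rw [avg_zero, zero_sub, zero_sub] at this
      exact this
    rw [h6, map_neg] at h5
    linarith
  have hr : ∀ a, R.root a (avg Γ mu' -
      R.comb (fun a => p a - fav Γ (fun b => (n b : ℚ)) a - fav Γ e a)) =
      R.root a (avg Γ mu - R.comb p) := by
    intro a
    rw [← transport R e y mu mu' n havg p, map_sub, hz a, sub_zero]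
  refine ⟨fun g a => ?_, fun a => ?_, fun a => ?_⟩
  · simp only
    unfold fav
    rw [h1, orb_smul]
  · rw [hr a]
    exact h2 a
  · rcases h3 a with h4 | ⟨z, hz⟩
    · left
      rw [hr a]
      exact h4
    · right
      refine ⟨z - ∑ b ∈ orb Γ a, n b, ?_⟩
      have hc := orb_card_pos Γ a
      simp only
      unfold fav
      push_cast
      rw [← hz, Finset.sum_add_distrib]
      field_simp
      ring

theorem half (R : Datum Γ V D) (c e : D → ℚ) (y mu mu' : V) (n : D → ℤ)
    (hmu : mu ∈ R.Y) (hmu' : mu' ∈ R.Y) (hd : ∀ a, 0 ≤ R.root a mu) (hd' : ∀ a, 0 ≤ R.root a mu')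
    (hroot : ∀ a, R.root a (y - R.comb e) = 0) (hN : mu - mu' - y ∈ R.N)
    (havg : avg Γ (mu - mu' - y) = R.comb (fav Γ (fun b => (n b : ℚ)))) :
    R.shift y e '' R.Kott c mu ⊆ R.Kott (fun a => c a + e a) mu' ↔
      ∀ a, ⌈∑ b ∈ orb Γ a, (c b + e b)⌉ ≤ ⌈∑ b ∈ orb Γ a, c b⌉ - ∑ b ∈ orb Γ a, n b := by
  have hk : (QuotientAddGroup.mk mu : V ⧸ R.N) - QuotientAddGroup.mk y = QuotientAddGroup.mk mu' := by
    rw [← QuotientAddGroup.mk_sub, QuotientAddGroup.eq]
    have : -(mu - y) + mu' = -(mu - mu' - y) := by abel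
    rw [this]
    exact R.N.neg_mem hN
  constructor
  · intro h β
    obtain ⟨p, hp, hadm, hle⟩ := test R c mu hd β
    have hx : ((avg Γ mu - R.comb p, QuotientAddGroup.mk mu) : V × (V ⧸ R.N)) ∈ R.Kott c mu := by
      rw [kott_char R c mu hmu]
      exact ⟨rfl, p, hp, rfl, hadm⟩
    have h1 := h ⟨_, hx, rfl⟩
    rw [kott_char R _ mu' hmu'] at h1
    obtain ⟨_, p', hp', he, _⟩ := h1
    have h2 : avg Γ mu - R.comb p - avg Γ (y - R.comb e) = avg Γ mu' - R.comb p' := he
    rw [transport R e y mu mu' n havg p] at h2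
    have h3 := comb_inj R _ _ (sub_right_injective h2)
    have h4 := hp' β
    rw [← h3] at h4
    simp only at h4
    have hc := orb_card_pos Γ β
    unfold fav at h4
    have h5 : 0 ≤ ((orb Γ β).card : ℚ) * (p β - (∑ b ∈ orb Γ β, (n b : ℚ)) / ((orb Γ β).card : ℚ) -
        (∑ b ∈ orb Γ β, e b) / ((orb Γ β).card : ℚ)) := mul_nonneg hc.le h4
    have h6 : ((orb Γ β).card : ℚ) * (p β - (∑ b ∈ orb Γ β, (n b : ℚ)) / ((orb Γ β).card : ℚ) -
        (∑ b ∈ orb Γ β, e b) / ((orb Γ β).card : ℚ)) = ((orb Γ β).card : ℚ) * p β -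
        ∑ b ∈ orb Γ β, (n b : ℚ) - ∑ b ∈ orb Γ β, e b := by
      field_simp
    rw [h6] at h5
    rw [Int.ceil_le]
    push_cast
    rw [Finset.sum_add_distrib]
    linarith
  · rintro h _ ⟨x, hx, rfl⟩
    rw [kott_char R c mu hmu] at hx
    obtain ⟨hx2, p, hp, hx1, hadm⟩ := hx
    rw [kott_char R _ mu' hmu']
    have hadm' := adm_transport R c e y mu mu' n hroot havg p hadm
    refine ⟨?_, fun a => p a - fav Γ (fun b => (n b : ℚ)) a - fav Γ e a, ?_, ?_, hadm'⟩
    · change x.2 - QuotientAddGroup.mk y = _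
      rw [hx2]
      exact hk
    · -- nonnegativity
      have h6 := comb_mmat R (fun a => R.root a (avg Γ mu' -
          R.comb (fun a => p a - fav Γ (fun b => (n b : ℚ)) a - fav Γ e a)) = 0)
        (fun a => (-1) * (p a - fav Γ (fun b => (n b : ℚ)) a - fav Γ e a))
        (fun a ha => by
          rw [comb_mul R (-1) (fun a => p a - fav Γ (fun b => (n b : ℚ)) a - fav Γ e a), map_smul]
          rw [map_sub] at ha
          have := root_avg R mu' hd' a
          simp only [smul_eq_mul]
          linarith)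
        (fun a ha => by
          rcases hadm'.2.2 a with h7 | ⟨z, hz⟩
          · exact absurd h7 ha
          · -- the integer for `p`
            have hc := orb_card_pos Γ a
            have h8 : ((orb Γ a).card : ℚ) * p a + ∑ b ∈ orb Γ a, c b =
                ((z + ∑ b ∈ orb Γ a, n b : ℤ) : ℚ) := by
              push_cast
              rw [← hz]
              simp only
              unfold fav
              rw [Finset.sum_add_distrib]
              field_simp
              ring
            have h9 : ⌈∑ b ∈ orb Γ a, c b⌉ ≤ z + ∑ b ∈ orb Γ a, n b := by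
              rw [Int.ceil_le, ← h8]
              have := mul_nonneg hc.le (hp a)
              linarith
            have h10 : ⌈∑ b ∈ orb Γ a, (c b + e b)⌉ ≤ z := by
              have := h a
              omega
            have h11 : ∑ b ∈ orb Γ a, (c b + e b) ≤ (z : ℚ) := Int.ceil_le.1 h10
            rw [← hz] at h11
            simp only at h11
            have h12 : 0 ≤ ((orb Γ a).card : ℚ) *
                (p a - fav Γ (fun b => (n b : ℚ)) a - fav Γ e a) := by linarith
            have h13 := nonneg_of_mul_nonneg_right h12 hc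
            linarith)
      intro a
      have := h6 a
      linarith
    · change x.1 - avg Γ (y - R.comb e) = _
      rw [hx1]
      exact transport R e y mu mu' n havg p

theorem kott_nonempty (R : Datum Γ V D) (c : D → ℚ) (mu : V) (hmu : mu ∈ R.Y)
    (hd : ∀ a, 0 ≤ R.root a mu) : ∃ x, x ∈ R.Kott c mu := by
  obtain ⟨p, hp, hinv, hb⟩ := basic R c mu hd
  refine ⟨(avg Γ mu - R.comb p, QuotientAddGroup.mk mu), ?_⟩
  rw [kott_char R c mu hmu]
  exact ⟨rfl, p, hp, rfl, hinv, fun a => (hb a).ge, fun a => Or.inl (hb a)⟩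

theorem criterion (R : Datum Γ V D) (c e : D → ℚ) (y : V)
    (he : ∀ a, R.root a y = R.root a (R.comb e)) (mu mu' : V) (hmu : mu ∈ R.Y)
    (hmu' : mu' ∈ R.Y) (hd : ∀ a, 0 ≤ R.root a mu) (hd' : ∀ a, 0 ≤ R.root a mu') :
    R.shift y e '' R.Kott c mu = R.Kott (fun a => c a + e a) mu' ↔
      mu - mu' - y ∈ R.N ∧ avg Γ (mu - mu' - y) =
        R.comb (fun a => (((⌈∑ b ∈ orb Γ a, c b⌉ - ⌈∑ b ∈ orb Γ a, (c b + e b)⌉ : ℤ) : ℚ) /
          (orb Γ a).card)) := by
  have hroot : ∀ a, R.root a (y - R.comb e) = 0 := fun a => by rw [map_sub, he a, sub_self]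
  -- reduction to two inclusions
  have hcore : ∀ n : D → ℤ, mu - mu' - y ∈ R.N →
      avg Γ (mu - mu' - y) = R.comb (fav Γ (fun b => (n b : ℚ))) →
      (R.shift y e '' R.Kott c mu = R.Kott (fun a => c a + e a) mu' ↔
        ∀ a, ⌈∑ b ∈ orb Γ a, c b⌉ - ⌈∑ b ∈ orb Γ a, (c b + e b)⌉ = ∑ b ∈ orb Γ a, n b) := by
    intro n hN havg
    have h1 := half R c e y mu mu' n hmu hmu' hd hd' hroot hN havg
    have hc2 : (fun a => (c a + e a) + (-1) * e a) = c := by funext a; ring
    have hcomb : R.comb (fun a => (-1) * e a) = -R.comb e := by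
      rw [comb_mul]
      simp
    have hN2 : mu' - mu - (-y) ∈ R.N := by
      have : mu' - mu - (-y) = -(mu - mu' - y) := by abel
      rw [this]
      exact R.N.neg_mem hN
    have havg2 : avg Γ (mu' - mu - (-y)) = R.comb (fav Γ (fun b => ((-n b : ℤ) : ℚ))) := by
      have h2 : mu' - mu - (-y) = 0 - (mu - mu' - y) := by abel
      have h3 : fav Γ (fun b => ((-n b : ℤ) : ℚ)) = fun a => (-1) * fav Γ (fun b => (n b : ℚ)) a := by
        funext a
        unfold fav
        push_cast
        rw [Finset.sum_neg_distrib]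
        ring
      rw [h2, avg_sub, avg_zero, havg, h3, comb_mul]
      simp
    have hroot2 : ∀ a, R.root a (-y - R.comb (fun a => (-1) * e a)) = 0 := by
      intro a
      have : -y - R.comb (fun a => (-1) * e a) = -(y - R.comb e) := by
        rw [hcomb]
        abel
      rw [this, map_neg, hroot a, neg_zero]
    have h4 := half R (fun a => c a + e a) (fun a => (-1) * e a) (-y) mu' mu (fun b => -n b) hmu' hmu
      hd' hd hroot2 hN2 havg2
    rw [hc2] at h4
    have hsh : ∀ x : V × (V ⧸ R.N), R.shift (-y) (fun a => (-1) * e a) (R.shift y e x) = x := by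
      intro x
      have e1 : (-y - R.comb (fun a => (-1) * e a)) = 0 - (y - R.comb e) := by
        rw [hcomb]
        abel
      have e2 : avg Γ (-y - R.comb (fun a => (-1) * e a)) = -avg Γ (y - R.comb e) := by
        rw [e1, avg_sub, avg_zero, zero_sub]
      unfold Datum.shift
      rw [e2]
      ext
      · simp
      · simp
    have hsh2 : ∀ x : V × (V ⧸ R.N), R.shift y e (R.shift (-y) (fun a => (-1) * e a) x) = x := by
      intro x
      have e1 : (-y - R.comb (fun a => (-1) * e a)) = 0 - (y - R.comb e) := by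
        rw [hcomb]
        abel
      have e2 : avg Γ (-y - R.comb (fun a => (-1) * e a)) = -avg Γ (y - R.comb e) := by
        rw [e1, avg_sub, avg_zero, zero_sub]
      unfold Datum.shift
      rw [e2]
      ext
      · simp
      · simp
    have h5 : (∀ a, ⌈∑ b ∈ orb Γ a, c b⌉ ≤
        ⌈∑ b ∈ orb Γ a, (c b + e b)⌉ - ∑ b ∈ orb Γ a, (-n b)) ↔
        ∀ a, ⌈∑ b ∈ orb Γ a, c b⌉ ≤ ⌈∑ b ∈ orb Γ a, (c b + e b)⌉ + ∑ b ∈ orb Γ a, n b := by
      refine forall_congr' fun a => ?_
      rw [Finset.sum_neg_distrib, sub_neg_eq_add]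
    replace h4 := h4.trans h5
    constructor
    · intro heq a
      have h6 := h1.1 heq.subset a
      have h7 := h4.1 (by
        rintro _ ⟨x, hx, rfl⟩
        rw [← heq] at hx
        obtain ⟨x', hx', rfl⟩ := hx
        rw [hsh]
        exact hx') a
      omega
    · intro hall
      apply Set.Subset.antisymm
      · exact h1.2 fun a => by have := hall a; omega
      · intro x hx
        have h8 := h4.2 (fun a => by have := hall a; omega) ⟨x, hx, rfl⟩
        exact ⟨_, h8, hsh2 x⟩
  constructor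
  · intro heq
    obtain ⟨x, hx⟩ := kott_nonempty R c mu hmu hd
    have hx2 := hx.2.1
    have h1 : R.shift y e x ∈ R.Kott (fun a => c a + e a) mu' := by
      rw [← heq]
      exact ⟨x, hx, rfl⟩
    have h2 := h1.2.1
    have h3 : x.2 - QuotientAddGroup.mk y = QuotientAddGroup.mk mu' := h2
    rw [hx2, ← QuotientAddGroup.mk_sub, QuotientAddGroup.eq] at h3
    have hN : mu - mu' - y ∈ R.N := by
      have : mu - mu' - y = -(-(mu - y) + mu') := by abel
      rw [this]
      exact R.N.neg_mem h3
    obtain ⟨n, hn⟩ := N_avg R _ hN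
    refine ⟨hN, ?_⟩
    have h4 := (hcore n hN hn).1 heq
    rw [hn]
    congr 1
    funext a
    rw [h4 a]
    unfold fav
    push_cast
    rfl
  · rintro ⟨hN, havg⟩
    obtain ⟨n, hn⟩ := N_avg R _ hN
    rw [hcore n hN hn]
    rw [hn] at havg
    intro a
    have h5 := congrFun (comb_inj R _ _ havg) a
    unfold fav at h5
    simp only at h5
    have hc := orb_card_pos Γ a
    rw [div_left_inj' hc.ne'] at h5
    exact_mod_cast h5.symm

end main

section uniq2

variable {Γ V D : Type} [Group Γ] [Fintype Γ] [AddCommGroup V] [Module ℚ V]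
  [DistribMulAction Γ V] [Fintype D] [DecidableEq D] [MulAction Γ D]

theorem adjoint_part (R : Datum Γ V D) (v : V) :
    ∃! e : D → ℚ, ∀ a, R.root a v = R.root a (R.comb e) := by
  obtain ⟨s, hs, hsym, hpos⟩ := R.posdef
  have hnd := nondeg (fun a b => R.root a (R.coroot b)) s hs hpos
  have hroot : ∀ (f : D → ℚ) (a : D),
      R.root a (R.comb f) = ∑ b, R.root a (R.coroot b) * f b := by
    intro f a
    unfold Datum.comb
    rw [map_sum]
    exact Finset.sum_congr rfl fun b _ => by rw [map_smul, smul_eq_mul, mul_comm]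
  obtain ⟨e, he⟩ := hnd.2 (fun a => R.root a v)
  refine ⟨e, fun a => ?_, fun e' he' => ?_⟩
  · rw [hroot]
    exact (he a).symm
  · have h1 : (fun a => e' a - e a) = 0 := by
      apply hnd.1
      intro a
      have h2 := he' a
      rw [hroot] at h2
      have h3 := he a
      simp only [mul_sub, Finset.sum_sub_distrib]
      linarith
    funext a
    have := congrFun h1 a
    simp only [Pi.zero_apply] at this
    linarith

end uniq2

end Pool.Agent.KottwitzG
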