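import Pool.Agent.KottwitzG.Frac
import Pool.Agent.KottwitzG.DefI

set_option autoImplicit false

namespace Pool.Agent.KottwitzG

open Finset

section zero

variable {Γ V D : Type} [Group Γ] [Fintype Γ] [AddCommGroup V] [Module ℚ V]
  [DistribMulAction Γ V] [Fintype D] [DecidableEq D] [MulAction Γ D]

theorem mem_I (R : Datum Γ V D) (g : Γ) (y : V) (hy : y ∈ R.Y) : g • y - y ∈ R.I := by
  unfold Datum.I
  exact AddSubgroup.subset_closure ⟨g, y, hy, rfl⟩

theorem I_le_N (R : Datum Γ V D) : R.I ≤ R.N := by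
  unfold Datum.I Datum.N
  exact AddSubgroup.closure_mono (Set.subset_union_right)

theorem avg_I (R : Datum Γ V D) (v : V) (hv : v ∈ R.I) : avg Γ v = 0 := by
  unfold Datum.I at hv
  induction hv using AddSubgroup.closure_induction with
  | mem x hx =>
    obtain ⟨g, y, _, rfl⟩ := hx
    rw [avg_sub, avg_smul, sub_self]
  | zero => exact avg_zero
  | add x y _ _ ihx ihy => rw [avg_add, ihx, ihy, add_zero]
  | neg x _ ih =>
    have := avg_sub (Γ := Γ) (0 : V) x
    rw [zero_sub, ih, avg_zero, sub_zero] at this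
    exact this

theorem exists_int (R : Datum Γ V D) (v : V) (hv : v ∈ R.N) :
    ∃ n : D → ℤ, v - R.comb (fun a => (n a : ℚ)) ∈ R.I := by
  unfold Datum.N at hv
  induction hv using AddSubgroup.closure_induction with
  | mem x hx =>
    rcases hx with ⟨a, rfl⟩ | ⟨g, y, hy, rfl⟩
    · refine ⟨Pi.single a 1, ?_⟩
      have : R.comb (fun b => ((Pi.single a 1 : D → ℤ) b : ℚ)) = R.coroot a := by
        unfold Datum.comb
        rw [Finset.sum_eq_single a]
        · simp
        · intro b _ hb
          simp [Pi.single_eq_of_ne hb]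
        · intro h
          exact absurd (Finset.mem_univ _) h
      rw [this, sub_self]
      exact R.I.zero_mem
    · refine ⟨fun _ => 0, ?_⟩
      have : R.comb (fun _ => ((0 : ℤ) : ℚ)) = 0 := by
        unfold Datum.comb
        simp
      rw [this, sub_zero]
      exact mem_I R g y hy
  | zero =>
    refine ⟨fun _ => 0, ?_⟩
    have : R.comb (fun _ => ((0 : ℤ) : ℚ)) = 0 := by
      unfold Datum.comb
      simp
    rw [this, sub_zero]
    exact R.I.zero_mem
  | add x y _ _ ihx ihy =>
    obtain ⟨n, hn⟩ := ihx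
    obtain ⟨m, hm⟩ := ihy
    refine ⟨fun a => n a + m a, ?_⟩
    have : R.comb (fun a => ((n a + m a : ℤ) : ℚ)) =
        R.comb (fun a => (n a : ℚ)) + R.comb (fun a => (m a : ℚ)) := by
      rw [← comb_add]
      congr 1
      funext a
      push_cast
      rfl
    rw [this]
    have h2 : x + y - (R.comb (fun a => (n a : ℚ)) + R.comb (fun a => (m a : ℚ))) =
        (x - R.comb (fun a => (n a : ℚ))) + (y - R.comb (fun a => (m a : ℚ))) := by abel
    rw [h2]
    exact R.I.add_mem hn hm
  | neg x _ ih =>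
    obtain ⟨n, hn⟩ := ih
    refine ⟨fun a => -n a, ?_⟩
    have : R.comb (fun a => ((-n a : ℤ) : ℚ)) = -R.comb (fun a => (n a : ℚ)) := by
      have h1 := comb_sub R (fun _ => 0) (fun a => (n a : ℚ))
      have h0 : R.comb (fun _ => (0 : ℚ)) = 0 := by
        unfold Datum.comb
        simp
      rw [h0, zero_sub] at h1
      rw [← h1]
      congr 1
      funext a
      push_cast
      ring
    rw [this]
    have h2 : -x - -R.comb (fun a => (n a : ℚ)) = -(x - R.comb (fun a => (n a : ℚ))) := by abel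
    rw [h2]
    exact R.I.neg_mem hn

theorem zero_avg (R : Datum Γ V D) (v : V) (hv : v ∈ R.N) (h0 : avg Γ v = 0) : v ∈ R.I := by
  classical
  obtain ⟨n, hn⟩ := exists_int R v hv
  have h1 := avg_I R _ hn
  rw [avg_sub, h0, zero_sub, neg_eq_zero, avg_comb] at h1
  have h00 : R.comb (fun _ => (0 : ℚ)) = 0 := by
    unfold Datum.comb
    simp
  have h2 := comb_inj R _ _ (h1.trans h00.symm)
  have h3 : ∀ a, ∑ b ∈ orb Γ a, n b = 0 := by
    intro a
    have h4 := congrFun h2 a
    have hc := orb_card_pos Γ a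
    unfold fav at h4
    rw [div_eq_zero_iff] at h4
    rcases h4 with h4 | h4
    · have h4' : (∑ b ∈ orb Γ a, (n b : ℚ)) = 0 := h4
      exact_mod_cast h4'
    · exact absurd h4 hc.ne'
  -- representatives
  let r : D → D := fun a => Quotient.out (Quotient.mk (MulAction.orbitRel Γ D) a)
  have hr : ∀ a, ∃ g : Γ, r a = g • a := by
    intro a
    have h5 : (MulAction.orbitRel Γ D) (r a) a := Quotient.mk_out (s := MulAction.orbitRel Γ D) a
    obtain ⟨g, hg⟩ := h5
    exact ⟨g, hg.symm⟩
  have hrr : ∀ (a b : D), r a = r b ↔ b ∈ orb Γ a := by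
    intro a b
    unfold orb
    simp only [mem_image, mem_univ, true_and]
    constructor
    · intro h
      obtain ⟨g, hg⟩ := hr a
      obtain ⟨g', hg'⟩ := hr b
      refine ⟨g'⁻¹ * g, ?_⟩
      rw [mul_smul, ← hg, h, hg', inv_smul_smul]
    · rintro ⟨g, rfl⟩
      have : (Quotient.mk (MulAction.orbitRel Γ D) a) = Quotient.mk (MulAction.orbitRel Γ D) (g • a) :=
        Quotient.sound ⟨g⁻¹, by simp⟩
      simp only [r, this]
  have hsum : R.comb (fun a => (n a : ℚ)) ∈ R.I := by
    have e1 : R.comb (fun a => (n a : ℚ)) =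
        ∑ a, (n a : ℚ) • (R.coroot a - R.coroot (r a)) + ∑ a, (n a : ℚ) • R.coroot (r a) := by
      unfold Datum.comb
      rw [← Finset.sum_add_distrib]
      refine Finset.sum_congr rfl fun a _ => ?_
      rw [← smul_add, sub_add_cancel]
    have e2 : ∑ a, (n a : ℚ) • R.coroot (r a) = 0 := by
      rw [← Finset.sum_fiberwise_of_maps_to (s := univ) (t := univ.image r) (g := r)
        (fun a _ => Finset.mem_image_of_mem r (Finset.mem_univ a))]
      refine Finset.sum_eq_zero fun t ht => ?_
      rw [Finset.mem_image] at ht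
      obtain ⟨a0, _, rfl⟩ := ht
      have e3 : ∑ a ∈ univ.filter (fun a => r a = r a0), (n a : ℚ) • R.coroot (r a) =
          ∑ a ∈ univ.filter (fun a => r a = r a0), (n a : ℚ) • R.coroot (r a0) :=
        Finset.sum_congr rfl fun a ha => by rw [(Finset.mem_filter.1 ha).2]
      rw [e3, ← Finset.sum_smul]
      have e4 : univ.filter (fun a => r a = r a0) = orb Γ a0 := by
        ext a
        rw [Finset.mem_filter, ← hrr a0 a]
        exact ⟨fun h => h.2.symm, fun h => ⟨Finset.mem_univ _, h.symm⟩⟩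
      rw [e4]
      have e5 : (∑ a ∈ orb Γ a0, (n a : ℚ)) = 0 := by exact_mod_cast h3 a0
      rw [e5, zero_smul]
    rw [e1, e2, add_zero]
    refine R.I.sum_mem fun a _ => ?_
    rw [Int.cast_smul_eq_zsmul]
    refine zsmul_mem ?_ _
    obtain ⟨g, hg⟩ := hr a
    have h6 := mem_I R g _ (R.coroot_mem a)
    rw [hg, R.coroot_smul]
    have h7 : R.coroot a - g • R.coroot a = -(g • R.coroot a - R.coroot a) := by abel
    rw [h7]
    exact R.I.neg_mem h6
  have h8 : v = (v - R.comb (fun a => (n a : ℚ))) + R.comb (fun a => (n a : ℚ)) := by abel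
  rw [h8]
  exact R.I.add_mem hn hsum

/-- for given `G, μ, b` the solutions form a class in `X_*(T)_Γ` -/
theorem unique_class (R : Datum Γ V D) (c e : D → ℚ) (y mu mu' mu'' : V)
    (he : ∀ a, R.root a y = R.root a (R.comb e)) (hmu : mu ∈ R.Y) (hmu' : mu' ∈ R.Y)
    (hmu'' : mu'' ∈ R.Y) (hd : ∀ a, 0 ≤ R.root a mu) (hd' : ∀ a, 0 ≤ R.root a mu')
    (hd'' : ∀ a, 0 ≤ R.root a mu'')
    (hsol : R.shift y e '' R.Kott c mu = R.Kott (fun a => c a + e a) mu') :
    R.shift y e '' R.Kott c mu = R.Kott (fun a => c a + e a) mu'' ↔ mu' - mu'' ∈ R.I := by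
  rw [criterion R c e y he mu mu' hmu hmu' hd hd'] at hsol
  rw [criterion R c e y he mu mu'' hmu hmu'' hd hd'']
  obtain ⟨h1, h2⟩ := hsol
  have e1 : mu - mu'' - y = (mu - mu' - y) + (mu' - mu'') := by abel
  constructor
  · rintro ⟨h3, h4⟩
    apply zero_avg
    · have e2 : mu' - mu'' = (mu - mu'' - y) - (mu - mu' - y) := by abel
      rw [e2]
      exact R.N.sub_mem h3 h1
    · have e2 : mu' - mu'' = (mu - mu'' - y) - (mu - mu' - y) := by abel
      rw [e2, avg_sub, h4, h2, sub_self]
  · intro h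
    rw [e1]
    refine ⟨R.N.add_mem h1 (I_le_N R h), ?_⟩
    rw [avg_add, avg_I R _ h, add_zero, h2]

end zero

end Pool.Agent.KottwitzG
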